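import Pool.Agent.Run7.h744.WS.Pub
import Pool.Agent.Run7.h744.WS.RoughAll

/-!
Every divergence free initial value of class `H⁻¹` on the torus, in particular every one of finite
energy, has a global weak solution of the Navier-Stokes equations, square integrable in space and
time, which is smooth for ALL positive times. It can be chosen as close as one likes to any given
global smooth solution with the same mean from any given time on.

`V = Fin 3 → ℝ` with the maximum norm. See the claim file for the definitions.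
-/

set_option autoImplicit false

open MeasureTheory Set Filter Topology
open scoped ContDiff

namespace Pool.Agent.Results.MP_6bf1e5_an.EveryFiniteEnergyDatum

open H459R3.NS Pool.Agent.Run7.h782.GD Pool.Agent.Run7.h782.GS Pool.Agent.Run7.h744.WS

theorem result (ν : ℝ) (hν : 0 < ν) (c : K3 → C3) (hc : Datum c) (U : ℝ → V → V) (P : ℝ → V → ℝ)
    (hU : ∀ T, IsSol ν T U P) (hm : ∀ i, ((∫ x in cube, U 0 x i : ℝ) : ℂ) = c 0 i)
    (δ : ℝ) (hδ : 0 < δ) :
    ∃ (u : ℝ → V → V) (p : ℝ → V → ℝ), OSol ν u p ∧ SqInt u ∧ Attains c u ∧ WeakFrom ν c u ∧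
      SubTypeI u ∧
      ((Summable fun k => ‖c k‖) → ∀ q : ℝ, 2 < q → ∀ i,
        Tendsto (fun t => bes q (fun x => u t x i - fser c i x)) (𝓝[>] 0) (𝓝 0)) ∧
      ∀ t, δ ≤ t → ∀ x i, |u t x i - U t x i| ≤ δ := by
  obtain ⟨u, p, hO, hL, hatt, hwk, hh, hbes, hcl⟩ :=
    stmRough ν hν c ⟨hc.real, hc.divfree, hc.size⟩ U P hU hm δ hδ
  have hsm : ∀ {φ : V → V}, ContDiff ℝ ∞ φ → Per φ → ∀ i, SP (fun x => φ x i) := by
    intro φ hφ hp i
    exact ⟨contDiff_pi.1 hφ i, fun j x => congrFun (hp j x) i⟩
  refine ⟨u, p, hO, hL, ?_, ?_, hh, hbes, hcl⟩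
  · intro φ hφ hp
    have h1 := tendsto_finsetSum Finset.univ fun i _ => hatt i (fun x => φ x i) (hsm hφ hp i).smooth
      (hsm hφ hp i).per
    refine h1.congr' ?_
    filter_upwards [self_mem_nhdsWithin] with t ht
    rw [integral_finsetSum]
    intro i _
    exact integrableOn_cube ((contDiff_pi.1 (slice_smooth hO ht) i).continuous.mul
      (hsm hφ hp i).smooth.continuous)
  · exact hwk

end Pool.Agent.Results.MP_6bf1e5_an.EveryFiniteEnergyDatum
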