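import Pool.Agent.Run7.h782.WQ.PubS
import Pool.Agent.Run7.h782.WQ.AllS

/-!
Which distributions on the torus are initial values of very weak solutions of the Navier-Stokes
equations in `⋂ₙ L²((0, T); L^(2 Qₙ))`, `Qₙ ≥ 1`: exactly the `mean + P div R` with a symmetric
matrix field `R` in `L^(Qₙ)` for all `n` (for one `Qₙ = 1`: solutions which are square integrable in
space and time, `R` integrable; all of `H⁻¹` is of this form). And each of them is the initial value
of solutions which are smooth for ALL positive times, attain it strongly in `P div L^(Qₙ)`, are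
arbitrarily close to being of subcritical size (`φ` is `o(x²)` but otherwise arbitrary; with
`φ x = x²` they would be unique), are limits of global smooth solutions, and are as close as one
likes to any given global smooth solution with the same mean from any given time on.

`V = Fin 3 → ℝ` with the maximum norm. All definitions are in `Pool.Agent.Run7.h782.WQ.PubS`, except
`IsSol`, `OSol` (smooth periodic solutions of the Navier-Stokes equations for `t` in `[0, T)` and in
`(0, ∞)`).
-/

set_option autoImplicit false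

open MeasureTheory Set Filter Topology
open scoped ContDiff

namespace Pool.Agent.Results.MP_6bf1e5_an.InitialValues

open H459R3.NS Pool.Agent.Run7.h782.GD Pool.Agent.Run7.h782.GS Pool.Agent.Run7.h782.WQ.Inst

theorem result (ν : ℝ) (hν : 0 < ν) (Q : ℕ → ℝ) (hQ : ∀ n, 1 ≤ Q n) (c : K3 → C3) (hc : Dist c) :
    [∃ T : ℝ, 0 < T ∧ ∃ u : ℝ → V → V, VeryWeak ν T c u ∧ ∀ n, InL2Lq T u (2 * Q n),
      ∃ R : Fin 3 → Fin 3 → V → ℝ, Stress R ∧ IsPDiv R c ∧
        ∀ n i j, IntegrableOn (fun x => |R i j x| ^ Q n) cube,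
      ∀ (U : ℝ → V → V) (P : ℝ → V → ℝ), (∀ T, IsSol ν T U P) →
        (∀ i, ((∫ x in cube, U 0 x i : ℝ) : ℂ) = c 0 i) → ∀ φ : ℝ → ℝ, IsGauge φ →
        ∀ δ : ℝ, 0 < δ → ∃ (u : ℝ → V → V) (p : ℝ → V → ℝ), Instant ν c Q φ u p ∧
          ∀ t, δ ≤ t → ∀ x i, |u t x i - U t x i| ≤ δ].TFAE :=
  finalS Pool.Agent.Run7.h782.WQ.stmFinal ν hν Q hQ c hc

end Pool.Agent.Results.MP_6bf1e5_an.InitialValues
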